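import Pool.Agent.L7h66.UA.Stm

set_option autoImplicit false

/-! Project UA, part CEQ. -/

namespace Pool.Agent.L7h50.UA

open Set Function
open Pool.Agent.L7h66.UA

/-- a map as in TYP preserves types -/
theorem ty_of_map {T : Tower} {W W' : Type} {ψ : ℕ → (W ≃ ℕ)} {ψ' : ℕ → (W' ≃ ℕ)}
    (hψ : Coh T ψ) {w : W} {f : W → W'} (hw : w ∉ Din T ψ)
    (h : ∀ n, ∀ u ∈ Cp T ψ w, ∃ s ∈ T.S n, ∀ v, ψ n v ∈ T.B n (ψ n u) → ψ' n (f v) = s (ψ n v))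
    {v : W} (hv : v ∈ Cp T ψ w) : Ty T ψ v ψ' (f v) := by
  intro n
  obtain ⟨s, hs, h1⟩ := h n v hv
  exact ⟨s, hs, h1 v (T.B_self n _ (not_of (hψ.cp_not hw hv)))⟩

/-- the symmetric part of CEQ -/
theorem ce_symm (h0 : S_TYP) {T : Tower} {W W' : Type} {ψ : ℕ → (W ≃ ℕ)} {ψ' : ℕ → (W' ≃ ℕ)}
    (hψ : Coh T ψ) (hψ' : Coh T ψ') {w : W} {w' : W'} (hw : w ∉ Din T ψ) (hw' : w' ∉ Din T ψ')
    (h : CE T ψ w ψ' w') : CE T ψ' w' ψ w := by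
  obtain ⟨u, hu, hty⟩ := h
  obtain ⟨f, -, hb, h1⟩ := h0 T W W' ψ ψ' hψ hψ' w u hw hty
  rw [hψ'.cp_eq hw' hu] at hb
  obtain ⟨v, hv, h2⟩ := hb.surjOn (cp_self hw')
  refine ⟨v, hv, Ty.symm ?_⟩
  rw [← h2]
  exact ty_of_map hψ hw h1 hv

/-- the transitive part of CEQ -/
theorem ce_trans (h0 : S_TYP) {T : Tower} {W W' W'' : Type} {ψ : ℕ → (W ≃ ℕ)} {ψ' : ℕ → (W' ≃ ℕ)}
    {ψ'' : ℕ → (W'' ≃ ℕ)} (hψ' : Coh T ψ') (hψ'' : Coh T ψ'') {w : W} {w' : W'} {w'' : W''}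
    (hw' : w' ∉ Din T ψ') (hw'' : w'' ∉ Din T ψ'')
    (h : CE T ψ w ψ' w') (h' : CE T ψ' w' ψ'' w'') : CE T ψ w ψ'' w'' := by
  obtain ⟨u, hu, hty⟩ := h
  obtain ⟨u2, hu2, hty2⟩ := h'
  obtain ⟨f, -, hb, h1⟩ := h0 T W' W'' ψ' ψ'' hψ' hψ'' w' u2 hw' hty2
  refine ⟨f u, ?_, hty.trans (ty_of_map hψ' hw' h1 hu)⟩
  rw [← hψ''.cp_eq hw'' hu2]
  exact hb.mapsTo hu

theorem s_CEQ (h0 : S_TYP) : S_CEQ := by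
  intro T W W' W'' ψ ψ' ψ'' hψ hψ' hψ'' w w' w'' hw hw' h
  exact ⟨ce_symm h0 hψ hψ' hw hw' h, fun hw'' h' => ce_trans h0 hψ' hψ'' hw' hw'' h h'⟩

end Pool.Agent.L7h50.UA

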