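import Pool.Agent.L7h66.UA.Stm

set_option autoImplicit false

/-! Project UA, part GLU. -/

namespace Pool.Agent.L7h50.UA

open Set Function
open Pool.Agent.L7h66.UA

theorem s_GLU : S_GLU := by
  intro T W W' ψ ψ' hψ hψ' f h1 h2
  refine ⟨f, fun n => ⟨(ψ n).symm.trans (f.trans (ψ' n)), T.S_le n ?_, fun w => ?_⟩⟩
  · refine T.S_loc n _ (fun v hv => ?_) (fun v hv => ?_)
    · have h3 := h1 n ((ψ n).symm v) (by rwa [Equiv.apply_symm_apply])
      rw [Equiv.apply_symm_apply] at h3
      exact h3
    · by_cases hw : (ψ n).symm v ∈ Din T ψ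
      · obtain ⟨m, hm⟩ := hw
        have hnm : n ≤ m := by
          by_contra hmn
          have h3 := hψ.din_up (le_of_lt (not_le.1 hmn)) hm
          rw [Equiv.apply_symm_apply] at h3
          exact hv h3
        obtain ⟨s, hs, h3⟩ := hψ.le hnm
        obtain ⟨s', hs', h4⟩ := hψ'.le hnm
        refine ⟨s' * s⁻¹, (T.S n).mul_mem hs' ((T.S n).inv_mem hs), fun u hu => ?_⟩
        have h5 : v = s (ψ m ((ψ n).symm v)) := by
          rw [← h3, Equiv.apply_symm_apply]
        have h6 : u = s (ψ m ((ψ n).symm u)) := by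
          rw [← h3, Equiv.apply_symm_apply]
        have h7 : ψ m ((ψ n).symm v) ∉ T.D n := by
          intro h8
          rw [h5, T.D_S hs] at hv
          exact hv h8
        have h8 : ψ m ((ψ n).symm u) ∈ T.B n (ψ m ((ψ n).symm v)) := by
          rw [← T.B_S hs h7, ← h5, ← h6]
          exact hu
        have h9 : ψ m ((ψ n).symm u) ∈ T.D m := T.B_D_le hnm h7 hm h8
        have h10 := h1 m _ h9
        show ψ' n (f ((ψ n).symm u)) = s' (s⁻¹ u)
        rw [h4, h10]
        congr 1
        rw [Equiv.Perm.eq_inv_iff_eq]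
        exact h6.symm
      · obtain ⟨s, hs, h3⟩ := h2 n _ hw
        refine ⟨s, hs, fun u hu => ?_⟩
        have h4 := h3 ((ψ n).symm u) (by rwa [Equiv.apply_symm_apply, Equiv.apply_symm_apply])
        rw [Equiv.apply_symm_apply] at h4
        exact h4
  · show ψ' n (f w) = ψ' n (f ((ψ n).symm (ψ n w)))
    rw [Equiv.symm_apply_apply]

end Pool.Agent.L7h50.UA
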