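import Pool.Agent.L7h66.UA.Stm
import Mathlib.Order.Filter.Ultrafilter.Basic

set_option autoImplicit false

/-! Project UA, part TYP. -/

namespace Pool.Agent.L7h50.UA

open Set Function
open Pool.Agent.L7h66.UA

/-- a function with values eventually in a finite set is eventually constant along an ultrafilter -/
theorem ult_const {α : Type} (U : Ultrafilter ℕ) (g : ℕ → α) {A : Set α} (hA : A.Finite)
    (h : ∀ᶠ n in (U : Filter ℕ), g n ∈ A) : ∃ a ∈ A, ∀ᶠ n in (U : Filter ℕ), g n = a := by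
  have h1 : (⋃ a ∈ A, {n | g n = a}) ∈ U := by
    refine Filter.mem_of_superset h fun n hn => ?_
    simp only [mem_iUnion]
    exact ⟨g n, hn, rfl⟩
  rw [Ultrafilter.finite_biUnion_mem_iff hA] at h1
  obtain ⟨a, ha, h2⟩ := h1
  exact ⟨a, ha, h2⟩

theorem s_TYP : S_TYP := by
  classical
  intro T W W' ψ ψ' hψ hψ' w w' hw hty
  choose s hs hsw using hty
  let F : ℕ → (W ≃ W') := fun n => (ψ n).trans ((s n).trans (ψ' n).symm)
  have hFw : ∀ n, F n w = w' := by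
    intro n
    show (ψ' n).symm (s n (ψ n w)) = w'
    rw [← hsw, Equiv.symm_apply_apply]
  -- `F N` is a map of level `m` for `m ≤ N`
  have hF : ∀ m N, m ≤ N → ∃ t ∈ T.S m, ∀ u, ψ' m (F N u) = t (ψ m u) := by
    intro m N hmN
    obtain ⟨a, ha, h1⟩ := hψ'.le hmN
    obtain ⟨b, hb, h2⟩ := hψ.le hmN
    refine ⟨a * s N * b⁻¹, (T.S m).mul_mem ((T.S m).mul_mem ha (T.S_anti_le hmN (hs N)))
      ((T.S m).inv_mem hb), fun u => ?_⟩
    rw [h1, h2, Equiv.Perm.mul_apply, Equiv.Perm.mul_apply]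
    show a (ψ' N ((ψ' N).symm (s N (ψ N u)))) = _
    rw [Equiv.apply_symm_apply]
    congr 2
    rw [Equiv.Perm.eq_inv_iff_eq]
  -- same atoms
  have hat : ∀ m N, m ≤ N → ∀ u v, ψ m u ∉ T.D m →
      (ψ' m (F N v) ∈ T.B m (ψ' m (F N u)) ↔ ψ m v ∈ T.B m (ψ m u)) := by
    intro m N hmN u v hu
    obtain ⟨t, ht, h1⟩ := hF m N hmN
    rw [h1, h1, T.B_S ht hu]
  let U : Ultrafilter ℕ := Filter.hyperfilter ℕ
  have hU : (U : Filter ℕ) ≤ Filter.atTop := Nat.hyperfilter_le_atTop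
  have hge : ∀ m, ∀ᶠ N in (U : Filter ℕ), m ≤ N := fun m => hU (Filter.eventually_ge_atTop m)
  have hw' : w' ∉ Din T ψ' := by
    rw [Ty.din (fun n => ⟨s n, hs n, hsw n⟩ : Ty T ψ w ψ' w')]
    exact hw
  have hfin' : ∀ m, {u' : W' | ψ' m u' ∈ T.B m (ψ' m w')}.Finite := fun m =>
    (T.B_fin m (ψ' m w')).preimage (ψ' m).injective.injOn
  have hfin : ∀ m x, {u : W | ψ m u ∈ T.B m x}.Finite := fun m x =>
    (T.B_fin m x).preimage (ψ m).injective.injOn
  have hex : ∀ u ∈ Cp T ψ w, ∃ u', ∀ᶠ N in (U : Filter ℕ), F N u = u' := by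
    rintro u ⟨m, hm⟩
    obtain ⟨u', -, h1⟩ := ult_const U (fun N => F N u) (hfin' m) (by
      filter_upwards [hge m] with N hN
      show ψ' m (F N u) ∈ T.B m (ψ' m w')
      have h2 := (hat m N hN w u (not_of hw)).2 hm
      rwa [hFw] at h2)
    exact ⟨u', h1⟩
  let f : W → W' := fun u => if h : ∃ u', ∀ᶠ N in (U : Filter ℕ), F N u = u' then h.choose else w'
  have hf : ∀ u ∈ Cp T ψ w, ∀ᶠ N in (U : Filter ℕ), F N u = f u := by
    intro u hu
    have h := hex u hu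
    have h1 : f u = h.choose := dif_pos h
    rw [h1]
    exact h.choose_spec
  refine ⟨f, ?_, ⟨?_, ?_, ?_⟩, ?_⟩
  · obtain ⟨N, hN⟩ := (hf w (cp_self hw)).exists
    rw [← hN, hFw]
  · rintro u ⟨m, hm⟩
    obtain ⟨N, hN, hmN⟩ := ((hf u ⟨m, hm⟩).and (hge m)).exists
    refine ⟨m, ?_⟩
    rw [← hN]
    have h2 := (hat m N hmN w u (not_of hw)).2 hm
    rwa [hFw] at h2
  · intro u hu v hv huv
    obtain ⟨N, hN, hN'⟩ := ((hf u hu).and (hf v hv)).exists
    exact (F N).injective (by rw [hN, hN', huv])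
  · rintro u' ⟨m, hm⟩
    obtain ⟨u, hu, h1⟩ := ult_const U (fun N => (F N).symm u') (hfin m (ψ m w)) (by
      filter_upwards [hge m] with N hN
      show ψ m ((F N).symm u') ∈ T.B m (ψ m w)
      rw [← hat m N hN w _ (not_of hw), hFw, Equiv.apply_symm_apply]
      exact hm)
    have hu' : u ∈ Cp T ψ w := ⟨m, hu⟩
    obtain ⟨N, hN, hN'⟩ := ((hf u hu').and h1).exists
    refine ⟨u, hu', ?_⟩
    rw [← hN, ← hN', Equiv.apply_symm_apply]
  · intro n u hu
    have h1 : ∀ v ∈ {v : W | ψ n v ∈ T.B n (ψ n u)}, ∀ᶠ N in (U : Filter ℕ), F N v = f v := by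
      intro v hv
      exact hf v (hψ.cp_trans hw hu ⟨n, hv⟩)
    rw [← Filter.eventually_all_finite (hfin n (ψ n u))] at h1
    obtain ⟨N, hN, hnN⟩ := (h1.and (hge n)).exists
    obtain ⟨t, ht, h2⟩ := hF n N hnN
    refine ⟨t, ht, fun v hv => ?_⟩
    rw [← hN v hv]
    exact h2 v

end Pool.Agent.L7h50.UA
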